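import Pool.Agent.Lib.MP_394210_lc.Asym

/-!
# Perfect numbers are recognised deterministically in time `n ^ o(1)`

The input `n` is given in binary (`encodeNat`); the machines are the deterministic Turing
machines of Mathlib.  With `L` the number of bits of `n`, the running time is at most
`exp (C L log log L / log L)`.
-/

namespace Pool.Agent.Results.MP_394210_lc.SubpowerTime

open Pool.Agent.Lib.MP_394210_lc Pool.Agent.PolyTime Turing Computability ArithmeticFunction

open scoped ArithmeticFunction.sigma

/-- The set `S` of natural numbers, given in binary, is decided by a deterministic Turing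
machine which makes at most `exp (C L log log L / log L)` steps on inputs of `L ≥ 3` bits, and
at most `C' n ^ ε` steps on the input `n > 0`, for every `ε > 0`. -/
def DecidedInSubpowerTime (S : Set ℕ) : Prop :=
  ∃ (f : ℕ → Bool) (M : TM2ComputableInTime encodeNat encodeBool f),
    (∀ n, f n = true ↔ n ∈ S) ∧
    (∃ C : ℝ, ∀ L : ℕ, 3 ≤ L →
      (M.time L : ℝ) ≤ Real.exp (C * (L * Real.log (Real.log L) / Real.log L))) ∧
    ∀ ε : ℝ, 0 < ε → ∃ C' : ℝ, ∀ n : ℕ, 0 < n →
      (M.time (encodeNat n).length : ℝ) ≤ C' * (n : ℝ) ^ ε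

theorem of_PT {R : Bin × ℕ → Bool} (hR : PT R) {S : Set ℕ}
    (hS : ∀ n : ℕ, R (⟨n⟩, 2 ^ (2 * jj n.size + 1)) = true ↔ n ∈ S) :
    DecidedInSubpowerTime S := by
  obtain ⟨M, C, hC⟩ := exists_fast hR (f := fun n => R (⟨n⟩, 2 ^ (2 * jj n.size + 1)))
    fun _ => rfl
  refine ⟨_, M, hS, ⟨C, hC⟩, fun ε hε => ?_⟩
  obtain ⟨C', hC'⟩ := time_rpow hC ε hε
  refine ⟨C', fun n hn => ?_⟩
  rw [Pool.Agent.PolyTime.encodeNat_eq, Nat.size_eq_bits_len]
  exact hC' n hn

/-- For every `k`, the positive integers `n` with `σ n = k n` (for `k = 2`: the perfect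
numbers) are recognised deterministically in time `exp (O (L log log L / log L))`, where `L` is
the number of bits of `n`. -/
theorem result (k : ℕ) : DecidedInSubpowerTime {n | 0 < n ∧ σ 1 n = k * n} :=
  of_PT (PT.recC' k) fun n => recC_iff k n

end Pool.Agent.Results.MP_394210_lc.SubpowerTime
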